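import Pool.Agent.V1139.Uq.Four

set_option autoImplicit false

open Matrix Module

namespace Pool.Agent.Results.MP_32472a_al.NotAlways

/-- `M` is irreducible tridiagonal: zero off the three central diagonals, and nonzero at every
position just above or just below the main diagonal. -/
def IrredTridiag {K : Type} [Field K] {n : ℕ} (M : Matrix (Fin n) (Fin n) K) : Prop :=
  (∀ i j : Fin n, i.val + 1 < j.val ∨ j.val + 1 < i.val → M i j = 0) ∧
  (∀ i j : Fin n, i.val + 1 = j.val ∨ j.val + 1 = i.val → M i j ≠ 0)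

/-- `A, B` is a Leonard pair on the `(d+1)`-dimensional space `V`; `θ 0, …, θ d` and
`θ' 0, …, θ' d` are the eigenvalues of `A` and of `B`, listed in the orders of the problem. -/
structure LeonardPair {K V : Type} [Field K] [AddCommGroup V] [Module K V] (d : ℕ)
    (A B : Module.End K V) (θ θ' : ℕ → K) : Prop where
  one : ∃ b : Basis (Fin (d + 1)) K V, IrredTridiag (LinearMap.toMatrix b b A) ∧
    LinearMap.toMatrix b b B = Matrix.diagonal (fun i : Fin (d + 1) => θ' i)
  two : ∃ b : Basis (Fin (d + 1)) K V, IrredTridiag (LinearMap.toMatrix b b B) ∧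
    LinearMap.toMatrix b b A = Matrix.diagonal (fun i : Fin (d + 1) => θ i)

/-- The relation `θ_{i-2} - θ_{i+1} = (β + 1) (θ_{i-1} - θ_i)` for `2 ≤ i ≤ d - 1`. -/
def HasBeta {K : Type} [Field K] (β : K) (d : ℕ) (θ : ℕ → K) : Prop :=
  ∀ i, 2 ≤ i → i + 1 ≤ d → θ (i - 2) - θ (i + 1) = (β + 1) * (θ (i - 1) - θ i)

/-- A `U_q(sl_2)`-module structure on `V`: the images `X, Xi, Y, Z` of the equitable generators
`X, X⁻¹, Y, Z`, satisfying the defining relations. -/
structure UqModule {K : Type} [Field K] (q : K) (V : Type) [AddCommGroup V] [Module K V] where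
  X : Module.End K V
  Xi : Module.End K V
  Y : Module.End K V
  Z : Module.End K V
  X_Xi : X * Xi = 1
  Xi_X : Xi * X = 1
  XY : (q - q⁻¹)⁻¹ • (q • (X * Y) - q⁻¹ • (Y * X)) = 1
  YZ : (q - q⁻¹)⁻¹ • (q • (Y * Z) - q⁻¹ • (Z * Y)) = 1
  ZX : (q - q⁻¹)⁻¹ • (q • (Z * X) - q⁻¹ • (X * Z)) = 1

/-- The only submodules are `0` and `V`. -/
def UqModule.Irreducible {K : Type} [Field K] {q : K} {V : Type} [AddCommGroup V] [Module K V]
    (R : UqModule q V) : Prop :=
  ∀ W : Submodule K V, (∀ v ∈ W, R.X v ∈ W ∧ R.Xi v ∈ W ∧ R.Y v ∈ W ∧ R.Z v ∈ W) →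
    W = ⊥ ∨ W = ⊤

/-- The statement asked about, for the field `K` and the dimension `d + 1`. -/
def Question (K : Type) [Field K] (d : ℕ) : Prop :=
  ∀ q : K, q ≠ 0 → (∀ n : ℕ, 0 < n → q ^ n ≠ 1) →
  ∀ (V : Type) [AddCommGroup V] [Module K V] (A B : Module.End K V) (θ θ' : ℕ → K),
    LeonardPair d A B θ θ' → HasBeta (q ^ 2 + q⁻¹ ^ 2) d θ → HasBeta (q ^ 2 + q⁻¹ ^ 2) d θ' →
    ∃ R : UqModule q V, R.Irreducible ∧
      A ∈ Submodule.span K {1, R.X, R.Y, R.X * R.Y} ∧
      B ∈ Submodule.span K {1, R.Y, R.Z, R.Y * R.Z}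

section
variable {K : Type} [Field K]

abbrev V4 (K : Type) : Type := Fin 4 → K

def matA (K : Type) [Field K] : Matrix (Fin 4) (Fin 4) K :=
  !![0, 21, 0, 0; 4, 0, 17, 0; 0, 17, 0, 4; 0, 0, 21, 0]

def matB (K : Type) [Field K] : Matrix (Fin 4) (Fin 4) K :=
  !![21, 0, 0, 0; 0, 4, 0, 0; 0, 0, -4, 0; 0, 0, 0, -21]

noncomputable def opA (K : Type) [Field K] : Module.End K (V4 K) := Matrix.toLin' (matA K)
noncomputable def opB (K : Type) [Field K] : Module.End K (V4 K) := Matrix.toLin' (matB K)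

theorem opA_apply (v : V4 K) : opA K v
    = ![21 * v 1, 4 * v 0 + 17 * v 2, 17 * v 1 + 4 * v 3, 21 * v 2] := by
  unfold opA matA
  rw [Matrix.toLin'_apply]
  funext i
  fin_cases i <;> simp [Matrix.mulVec, dotProduct, Fin.sum_univ_four]

theorem opB_apply (v : V4 K) : opB K v = ![21 * v 0, 4 * v 1, -4 * v 2, -21 * v 3] := by
  unfold opB matB
  rw [Matrix.toLin'_apply]
  funext i
  fin_cases i <;> simp [Matrix.mulVec, dotProduct, Fin.sum_univ_four]

theorem mat_of {V : Type} [AddCommGroup V] [Module K V] (c : Basis (Fin 4) K V)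
    (X : Module.End K V) (N : Matrix (Fin 4) (Fin 4) K) (h : ∀ j, X (c j) = ∑ k, N k j • c k) :
    LinearMap.toMatrix c c X = N := by
  ext i j
  rw [LinearMap.toMatrix_apply, h j, map_sum, Finset.sum_apply']
  simp only [map_smul, Finsupp.smul_apply, Basis.repr_self, smul_eq_mul]
  rw [Finset.sum_eq_single i]
  · simp
  · intro k _ hk
    rw [Finsupp.single_apply, if_neg hk, mul_zero]
  · intro h; exact absurd (Finset.mem_univ _) h

/-- the eigenvalue sequence `21, 4, -4, -21` -/
def th (K : Type) [Field K] : ℕ → K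
  | 0 => 21
  | 1 => 4
  | 2 => -4
  | _ => -21

variable [CharZero K]

theorem half1 : ∃ b : Basis (Fin 4) K (V4 K), IrredTridiag (LinearMap.toMatrix b b (opA K)) ∧
    LinearMap.toMatrix b b (opB K) = Matrix.diagonal (fun i : Fin 4 => th K i) := by
  refine ⟨Pi.basisFun K (Fin 4), ?_, ?_⟩
  · have : LinearMap.toMatrix (Pi.basisFun K (Fin 4)) (Pi.basisFun K (Fin 4)) (opA K) = matA K := by
      unfold opA
      rw [LinearMap.toMatrix_eq_toMatrix', LinearMap.toMatrix'_toLin']
    rw [this]
    unfold matA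
    constructor
    · intro i j h
      fin_cases i <;> fin_cases j <;> simp_all
    · intro i j h
      fin_cases i <;> fin_cases j <;> simp_all
  · have : LinearMap.toMatrix (Pi.basisFun K (Fin 4)) (Pi.basisFun K (Fin 4)) (opB K) = matB K := by
      unfold opB
      rw [LinearMap.toMatrix_eq_toMatrix', LinearMap.toMatrix'_toLin']
    rw [this]
    ext i j
    fin_cases i <;> fin_cases j <;> simp [matB, th, Matrix.diagonal]

theorem half2 : ∃ b : Basis (Fin 4) K (V4 K), IrredTridiag (LinearMap.toMatrix b b (opB K)) ∧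
    LinearMap.toMatrix b b (opA K) = Matrix.diagonal (fun i : Fin 4 => th K i) := by
  let v : Fin 4 → V4 K := ![![1, 1, 1, 1], ![21, 4, -4, -21], ![21, -4, -4, 21], ![1, -1, 1, -1]]
  have hli : LinearIndependent K v := by
    rw [Fintype.linearIndependent_iff]
    intro g hg
    have r0 := congrFun hg 0
    have r1 := congrFun hg 1
    have r2 := congrFun hg 2
    have r3 := congrFun hg 3
    simp [v, Fin.sum_univ_four] at r0 r1 r2 r3
    have e0 : 50 * g 0 = 0 := by linear_combination 4 * r0 + 4 * r3 + 21 * r1 + 21 * r2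
    have e3 : 50 * g 3 = 0 := by linear_combination 4 * r0 - 4 * r3 - 21 * r1 + 21 * r2
    have e1 : 50 * g 1 = 0 := by linear_combination r0 - r3 + r1 - r2
    have e2 : 50 * g 2 = 0 := by linear_combination r0 + r3 - r1 - r2
    have h50 : (50 : K) ≠ 0 := by norm_num
    intro i
    fin_cases i
    · exact (mul_eq_zero.mp e0).resolve_left h50
    · exact (mul_eq_zero.mp e1).resolve_left h50
    · exact (mul_eq_zero.mp e2).resolve_left h50
    · exact (mul_eq_zero.mp e3).resolve_left h50
  let c : Basis (Fin 4) K (V4 K) := basisOfLinearIndependentOfCardEqFinrank hli (by simp)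
  have hc : ∀ i, c i = v i := fun i => by simp [c]
  refine ⟨c, ?_, ?_⟩
  · have : LinearMap.toMatrix c c (opB K)
        = !![0, 84, 0, 0; 1, 0, 17, 0; 0, 17, 0, 1; 0, 0, 84, 0] := by
      apply mat_of
      intro j
      funext k
      rw [Fin.sum_univ_four, hc, hc, hc, hc, hc]
      fin_cases j <;> fin_cases k <;> simp [opB_apply, v] <;> norm_num
    rw [this]
    constructor
    · intro i j h
      fin_cases i <;> fin_cases j <;> simp_all
    · intro i j h
      fin_cases i <;> fin_cases j <;> simp_all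
  · apply mat_of
    intro j
    funext k
    rw [Fin.sum_univ_four, hc, hc, hc, hc, hc]
    fin_cases j <;> fin_cases k <;> simp [opA_apply, v, th, Matrix.diagonal] <;> norm_num

theorem leonard : LeonardPair 3 (opA K) (opB K) (th K) (th K) := ⟨half1, half2⟩

theorem beta : HasBeta ((2 : K) ^ 2 + (2 : K)⁻¹ ^ 2) 3 (th K) := by
  intro i h1 h2
  obtain rfl : i = 2 := by omega
  simp [th]
  norm_num

/-- power sums determine the eigenvalue parameters -/
theorem eig_data (E p r : K)
    (t1 : (E + p + 64 * r) + (E + 4 * p + 16 * r) + (E + 16 * p + 4 * r) + (E + 64 * p + r) = 0)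
    (t2 : (E + p + 64 * r) ^ 2 + (E + 4 * p + 16 * r) ^ 2 + (E + 16 * p + 4 * r) ^ 2
      + (E + 64 * p + r) ^ 2 = 914)
    (t3 : (E + p + 64 * r) ^ 3 + (E + 4 * p + 16 * r) ^ 3 + (E + 16 * p + 4 * r) ^ 3
      + (E + 64 * p + r) ^ 3 = 0)
    (t4 : (E + p + 64 * r) ^ 4 + (E + 4 * p + 16 * r) ^ 4 + (E + 16 * p + 4 * r) ^ 4
      + (E + 64 * p + r) ^ 4 = 389474) : E = 0 ∧ r = -p ∧ p ^ 2 = 1 / 9 := by
  have hE : E = -(85 / 4) * (p + r) := by linear_combination (1 / 4 : K) * t1
  subst hE
  have h3 : (p + r) * (p - r) ^ 2 = 0 := by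
    have : (135 / 8 * 3825 : K) * ((p + r) * (p - r) ^ 2) = 0 := by linear_combination t3
    rcases mul_eq_zero.mp this with h | h
    · norm_num at h
    · exact h
  rcases mul_eq_zero.mp h3 with h | h
  · have hr : r = -p := by linear_combination h
    subst hr
    refine ⟨by ring, rfl, ?_⟩
    have : (8226 : K) * p ^ 2 = 914 := by linear_combination t2
    linear_combination (1 / 8226 : K) * this
  · exfalso
    have hr : r = p := by
      have : p - r = 0 := by simpa using h
      linear_combination -this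
    subst hr
    have e2 : (2025 : K) * r ^ 2 = 914 := by linear_combination t2
    have e4 : ((2025 : K) * r ^ 2) ^ 2 = 4 * 389474 := by linear_combination 4 * t4
    rw [e2] at e4
    norm_num at e4

theorem tr_eq (b : Basis (Fin 4) K (V4 K)) (f : Module.End K (V4 K)) (c : K)
    (h : (LinearMap.toMatrix' f).trace = c) : (LinearMap.toMatrix b b f).trace = c := by
  rw [← LinearMap.trace_eq_matrix_trace K b, ← h, ← LinearMap.toMatrix_eq_toMatrix',
    ← LinearMap.trace_eq_matrix_trace K]

theorem no_structure (hK : ∀ x : K, x ^ 2 ≠ -1) (R : UqModule (2 : K) (V4 K))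
    (hI : R.Irreducible) (hA : opA K ∈ Submodule.span K {1, R.X, R.Y, R.X * R.Y})
    (hB : opB K ∈ Submodule.span K {1, R.Y, R.Z, R.Y * R.Z}) : False := by
  have rel : ∀ S T : Module.End K (V4 K),
      ((2 : K) - (2 : K)⁻¹)⁻¹ • ((2 : K) • (S * T) - (2 : K)⁻¹ • (T * S)) = 1 →
      (4 : K) • (S * T) = (3 : K) • 1 + T * S := by
    intro S T h
    have h2 : (2 : K) • (S * T) - (2 : K)⁻¹ • (T * S) = ((2 : K) - (2 : K)⁻¹) • 1 := by
      rw [← h, smul_smul, mul_inv_cancel₀ (by norm_num), one_smul]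
    have h3 : (4 : K) • (S * T) = (2 : K) • ((2 : K) • (S * T) - (2 : K)⁻¹ • (T * S)) + T * S := by
      rw [smul_sub, smul_smul, smul_smul]; norm_num
    rw [h3, h2, smul_smul]; norm_num
  have HR : Pool.Agent.V1139.Uq.Rep R.X R.Xi R.Y R.Z :=
    ⟨R.X_Xi, R.Xi_X, rel _ _ R.XY, rel _ _ R.YZ, rel _ _ R.ZX⟩
  have HI : Pool.Agent.V1139.Uq.Irr R.X R.Xi R.Y R.Z := fun W h1 h2 h3 h4 =>
    hI W fun v hv => ⟨h1 v hv, h2 v hv, h3 v hv, h4 v hv⟩
  obtain ⟨b, m, hm, X0, X1, X2, X3, Y0, Y1, Y2, Y3, Z0, Z1, Z2, Z3⟩ :=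
    HR.main (by simp) HI
  simp only [Submodule.mem_span_insert, Submodule.mem_span_singleton] at hA hB
  obtain ⟨a0, _, ⟨a1, _, ⟨a2, _, ⟨a3, rfl⟩, rfl⟩, rfl⟩, hA⟩ := hA
  obtain ⟨b0, _, ⟨b1, _, ⟨b2, _, ⟨b3, rfl⟩, rfl⟩, rfl⟩, hB⟩ := hB
  -- matrices in the basis `b`
  have MA : LinearMap.toMatrix b b (opA K) =
      !![(a0 + a3) + a1 * m + 64 * (a2 * m), 189 / 4 * (a1 * m) + 189 / 16 * a3, 0, 0;
        0, (a0 + a3) + 4 * (a1 * m) + 16 * (a2 * m), 225 / 4 * (a1 * m) + 225 / 64 * a3, 0;
        0, 0, (a0 + a3) + 16 * (a1 * m) + 4 * (a2 * m), 189 / 4 * (a1 * m) + 189 / 256 * a3;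
        0, 0, 0, (a0 + a3) + 64 * (a1 * m) + a2 * m] := by
    apply mat_of
    intro j
    rw [hA, Fin.sum_univ_four]
    fin_cases j
    · simp [X0, Y0, smul_smul]
      match_scalars
      linear_combination (64 * a3) * hm
    · simp [X0, X1, Y1, smul_smul]
      match_scalars
      · linear_combination (64 * a3) * hm
      · linear_combination (16 * 189 / 4 * a3) * hm
    · simp [X0, X1, X2, Y2, smul_smul]
      match_scalars
      · linear_combination (64 * a3) * hm
      · linear_combination (225 * a3) * hm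
    · simp [X0, X1, X2, X3, Y3, smul_smul]
      match_scalars
      · linear_combination (64 * a3) * hm
      · linear_combination (189 / 4 * a3) * hm
  have MB : LinearMap.toMatrix b b (opB K) =
      !![(b0 + b3) + b2 * m + 64 * (b1 * m), 0, 0, 0;
        -(4 * (b2 * m)) - b3, (b0 + b3) + 4 * (b2 * m) + 16 * (b1 * m), 0, 0;
        0, -(16 * (b2 * m)) - b3, (b0 + b3) + 16 * (b2 * m) + 4 * (b1 * m), 0;
        0, 0, -(64 * (b2 * m)) - b3, (b0 + b3) + 64 * (b2 * m) + b1 * m] := by
    apply mat_of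
    intro j
    rw [hB, Fin.sum_univ_four]
    fin_cases j
    · simp [Z0, Y0, Y1, smul_smul]
      match_scalars
      · linear_combination (64 * b3) * hm
      · linear_combination (-64 * b3) * hm
    · simp [Z1, Y1, Y2, smul_smul]
      match_scalars
      · linear_combination (64 * b3) * hm
      · linear_combination (-64 * b3) * hm
    · simp [Z2, Y2, Y3, smul_smul]
      match_scalars
      · linear_combination (64 * b3) * hm
      · linear_combination (-64 * b3) * hm
    · simp [Z3, Y3, smul_smul]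
      match_scalars
      linear_combination (64 * b3) * hm
  have mA : LinearMap.toMatrix' (opA K) = matA K := by unfold opA; simp
  have mB : LinearMap.toMatrix' (opB K) = matB K := by unfold opB; simp
  have tA1 := tr_eq b (opA K) 0 (by
    rw [mA]; simp [matA, Matrix.trace, Fin.sum_univ_four])
  have tA2 := tr_eq b (opA K * opA K) 914 (by
    rw [LinearMap.toMatrix'_mul, mA]
    simp [matA, Matrix.trace, Fin.sum_univ_four, Matrix.mul_apply]; norm_num)
  have tA3 := tr_eq b (opA K * opA K * opA K) 0 (by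
    rw [LinearMap.toMatrix'_mul, LinearMap.toMatrix'_mul, mA]
    simp [matA, Matrix.trace, Fin.sum_univ_four, Matrix.mul_apply])
  have tA4 := tr_eq b (opA K * opA K * opA K * opA K) 389474 (by
    rw [LinearMap.toMatrix'_mul, LinearMap.toMatrix'_mul, LinearMap.toMatrix'_mul, mA]
    simp [matA, Matrix.trace, Fin.sum_univ_four, Matrix.mul_apply]; norm_num)
  have tB1 := tr_eq b (opB K) 0 (by
    rw [mB]; simp [matB, Matrix.trace, Fin.sum_univ_four])
  have tB2 := tr_eq b (opB K * opB K) 914 (by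
    rw [LinearMap.toMatrix'_mul, mB]
    simp [matB, Matrix.trace, Fin.sum_univ_four, Matrix.mul_apply]; norm_num)
  have tB3 := tr_eq b (opB K * opB K * opB K) 0 (by
    rw [LinearMap.toMatrix'_mul, LinearMap.toMatrix'_mul, mB]
    simp [matB, Matrix.trace, Fin.sum_univ_four, Matrix.mul_apply])
  have tB4 := tr_eq b (opB K * opB K * opB K * opB K) 389474 (by
    rw [LinearMap.toMatrix'_mul, LinearMap.toMatrix'_mul, LinearMap.toMatrix'_mul, mB]
    simp [matB, Matrix.trace, Fin.sum_univ_four, Matrix.mul_apply]; norm_num)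
  have tAB := tr_eq b (opA K * opB K) 0 (by
    rw [LinearMap.toMatrix'_mul, mA, mB]
    simp [matA, matB, Matrix.trace, Fin.sum_univ_four, Matrix.mul_apply])
  have tAAB := tr_eq b (opA K * opA K * opB K) 0 (by
    rw [LinearMap.toMatrix'_mul, LinearMap.toMatrix'_mul, mA, mB]
    simp [matA, matB, Matrix.trace, Fin.sum_univ_four, Matrix.mul_apply]; norm_num)
  rw [LinearMap.toMatrix_mul, LinearMap.toMatrix_mul, MA, MB] at tAAB
  rw [LinearMap.toMatrix_mul, MA, MB] at tAB
  rw [LinearMap.toMatrix_mul, LinearMap.toMatrix_mul, LinearMap.toMatrix_mul, MA] at tA4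
  rw [LinearMap.toMatrix_mul, LinearMap.toMatrix_mul, MA] at tA3
  rw [LinearMap.toMatrix_mul, MA] at tA2
  rw [MA] at tA1
  rw [LinearMap.toMatrix_mul, LinearMap.toMatrix_mul, LinearMap.toMatrix_mul, MB] at tB4
  rw [LinearMap.toMatrix_mul, LinearMap.toMatrix_mul, MB] at tB3
  rw [LinearMap.toMatrix_mul, MB] at tB2
  rw [MB] at tB1
  simp [Matrix.trace, Fin.sum_univ_four, Matrix.mul_apply] at tA1 tA2 tA3 tA4 tB1 tB2 tB3 tB4 tAB tAAB
  clear MA MB mA mB
  obtain ⟨eA, rA, pA⟩ := eig_data (a0 + a3) (a1 * m) (a2 * m) (by linear_combination tA1)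
    (by linear_combination tA2) (by linear_combination tA3) (by linear_combination tA4)
  obtain ⟨eB, rB, pB⟩ := eig_data (b0 + b3) (b2 * m) (b1 * m) (by linear_combination tB1)
    (by linear_combination tB2) (by linear_combination tB3) (by linear_combination tB4)
  rw [eA, rA, eB, rB] at tAB tAAB
  generalize a1 * m = p at *
  generalize b2 * m = u at *
  have hp : p ≠ 0 := by rintro rfl; norm_num at pA
  have hu : u ≠ 0 := by rintro rfl; norm_num at pB
  have c1 : a3 * b3 = 256 * p * u := by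
    have : p * (a3 * b3 - 256 * p * u) = 0 := by
      linear_combination (256 / 212625 : K) * tAAB
    have := (mul_eq_zero.mp this).resolve_left hp
    linear_combination this
  have c2 : p * b3 + a3 * u = 0 := by
    linear_combination (-(4 / 603) : K) * tAB - (4 * 4113 / (603 * 256) : K) * c1
  have c3 : a3 ^ 2 = -(256 * p ^ 2) := by
    have : u * (a3 ^ 2 + 256 * p ^ 2) = 0 := by
      linear_combination a3 * c2 - p * c1
    have := (mul_eq_zero.mp this).resolve_left hu
    linear_combination this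
  apply hK (a3 / (16 * p))
  rw [div_pow, c3]
  field_simp
  norm_num

/-- For every field `K` of characteristic `0` in which `-1` is not a square (for instance the
rationals or the reals), the statement asked about fails for `d = 3`: some Leonard pair on `K^4`
with `β = q² + q⁻²`, `q = 2`, admits no irreducible `U_q(sl_2)`-module structure as required. -/
theorem result (K : Type) [Field K] [CharZero K] (hK : ∀ x : K, x ^ 2 ≠ -1) : ¬ Question K 3 := by
  intro h
  obtain ⟨R, hI, hA, hB⟩ := h 2 (by norm_num) (by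
    intro n hn h
    have h' : ((2 ^ n : ℕ) : K) = ((1 : ℕ) : K) := by push_cast; exact h
    have h'' : 2 ^ n = 1 := by exact_mod_cast h'
    rw [Nat.pow_eq_one] at h''
    omega) (V4 K) (opA K) (opB K) (th K) (th K) leonard beta beta
  exact no_structure hK R hI hA hB

end

end Pool.Agent.Results.MP_32472a_al.NotAlways
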